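import Pool.Agent.R530.TotGap

/-!
# `|φ(n + 1) - φ(n)| < n ^ (1 - c)` for infinitely many `n`

A greedy construction with primes in short intervals (Hoheisel's theorem) gives odd `b` with
`φ(b) / b = (1 + θ) / 2`, `0 < θ ≤ b ^ (-κ)`.  A lower bound sieve of dimension two gives `n` with
`b ∣ n + 1`, `2 ∣ n`, `n ≤ b ^ E`, such that `n / 2` and `(n + 1) / b` have no prime factor up to `b`.
-/

set_option autoImplicit false
set_option maxHeartbeats 4000000

namespace Pool.Agent.Results.MP_a17a46_nt.PowerSaving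

open Finset Filter Pool.Agent.R530 Pool.Agent.R530.Tot
open Pool.Agent.H661R3.OP (Rough)

lemma choose_k (b : ℕ) (hb : Odd b) : ∃ k₀ : ℕ, 1 ≤ k₀ ∧ k₀ ≤ 11 ∧ (b * k₀) % 4 = 3 ∧
    k₀ % 3 ≠ 0 ∧ (b * k₀) % 3 ≠ 1 := by
  obtain ⟨c, r, hr, hbr⟩ : ∃ c r, r < 12 ∧ b = 12 * c + r :=
    ⟨b / 12, b % 12, Nat.mod_lt _ (by norm_num), by omega⟩
  obtain ⟨m, hm⟩ := hb
  have h4 : ∀ k, (b * k) % 4 = (r * k) % 4 := by
    intro k
    rw [hbr, add_mul, show 12 * c * k = 4 * (3 * c * k) by ring, Nat.mul_add_mod]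
  have h3 : ∀ k, (b * k) % 3 = (r * k) % 3 := by
    intro k
    rw [hbr, add_mul, show 12 * c * k = 3 * (4 * c * k) by ring, Nat.mul_add_mod]
  have hr2 : r = 1 ∨ r = 3 ∨ r = 5 ∨ r = 7 ∨ r = 9 ∨ r = 11 := by omega
  rcases hr2 with rfl | rfl | rfl | rfl | rfl | rfl
  · exact ⟨11, by norm_num, by norm_num, by rw [h4], by norm_num, by rw [h3]; norm_num⟩
  · exact ⟨1, by norm_num, by norm_num, by rw [h4], by norm_num, by rw [h3]; norm_num⟩
  · exact ⟨7, by norm_num, by norm_num, by rw [h4], by norm_num, by rw [h3]; norm_num⟩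
  · exact ⟨5, by norm_num, by norm_num, by rw [h4], by norm_num, by rw [h3]; norm_num⟩
  · exact ⟨7, by norm_num, by norm_num, by rw [h4], by norm_num, by rw [h3]; norm_num⟩
  · exact ⟨1, by norm_num, by norm_num, by rw [h4], by norm_num, by rw [h3]; norm_num⟩

/-- the linear forms have no fixed prime divisor -/
lemma lin_poly (l : ℕ) (hl : l.Prime) (α β : ℤ) (h : ¬ ((l : ℤ) ∣ α ∧ (l : ℤ) ∣ β)) :
    ∃ P : Polynomial (ZMod l), P ≠ 0 ∧ P.natDegree ≤ 1 ∧
      ∀ t : ℕ, ((l : ℤ) ∣ β + α * t ↔ P.eval (t : ZMod l) = 0) := by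
  have : Fact l.Prime := ⟨hl⟩
  refine ⟨Polynomial.C (α : ZMod l) * Polynomial.X + Polynomial.C (β : ZMod l), ?_,
    Polynomial.natDegree_linear_le, ?_⟩
  · intro h0
    have h2 : (β : ZMod l) = 0 := by
      have := congrArg (fun P => Polynomial.eval 0 P) h0
      simpa using this
    have h1 : (α : ZMod l) = 0 := by
      have := congrArg (fun P => Polynomial.eval 1 P) h0
      rw [h2] at this
      simpa using this
    exact h ⟨(ZMod.intCast_zmod_eq_zero_iff_dvd α l).mp h1,
      (ZMod.intCast_zmod_eq_zero_iff_dvd β l).mp h2⟩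
  · intro t
    rw [← ZMod.intCast_zmod_eq_zero_iff_dvd]
    push_cast
    simp only [Polynomial.eval_add, Polynomial.eval_mul, Polynomial.eval_C, Polynomial.eval_X]
    rw [add_comm]

/-- the sieve: `k` and `m` rough with `b k = 2 m + 1` -/
lemma sieve_pair : ∃ E : ℕ, 3 ≤ E ∧ ∀ b : ℕ, Odd b → 12 ≤ b → ∃ k m : ℕ, 0 < k ∧ 0 < m ∧
    b * k = 2 * m + 1 ∧ b * k ≤ b ^ E ∧ (∀ p : ℕ, p.Prime → p ∣ k → b < p) ∧
    (∀ p : ℕ, p.Prime → p ∣ m → b < p) := by
  classical
  obtain ⟨C, hC⟩ := Pool.Agent.TH423.DS.sieve_poly 2 (by norm_num)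
  refine ⟨C + 3, by omega, fun b hb hb12 => ?_⟩
  obtain ⟨k₀, hk1, hk11, h4, h3, h3'⟩ := choose_k b hb
  obtain ⟨m₀, hm₀⟩ : ∃ m₀, b * k₀ = 2 * m₀ + 1 := ⟨(b * k₀ - 1) / 2, by omega⟩
  have hm₀3 : m₀ % 3 ≠ 0 := by omega
  have hm₀2 : m₀ % 2 = 1 := by omega
  set v : Bool → ℕ → ℤ := fun i t => if i then (k₀ : ℤ) + 12 * t else (m₀ : ℤ) + (6 * b : ℤ) * t
    with hv
  have hmain := hC Bool v (fun _ => 1) b (by omega) (by simp) ?_ ?_ (b ^ C) le_rfl
  · obtain ⟨t, ht1, ht2⟩ : ∃ t, t < b ^ C ∧ ∀ i, Rough b (v i t) := by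
      by_contra hno
      push Not at hno
      have h2 : 0 < b ^ C := by positivity
      have hfin : ∀ s : Finset ℕ, s = ∅ → b ^ C ≤ b ^ C * s.card → False := by
        intro s hs h3
        rw [hs, card_empty, mul_zero] at h3
        omega
      apply hfin _ ?_ hmain
      rw [Finset.eq_empty_iff_forall_notMem]
      intro t ht
      simp only [Finset.mem_filter, Finset.mem_range] at ht
      obtain ⟨i, hi⟩ := hno t ht.1
      exact hi (ht.2 i)
    have hr1 := ht2 true
    have hr2 := ht2 false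
    simp only [hv, if_true, Bool.false_eq_true, if_false] at hr1 hr2
    refine ⟨k₀ + 12 * t, m₀ + 6 * b * t, by omega, by omega, ?_, ?_, ?_, ?_⟩
    · have e : b * (k₀ + 12 * t) = b * k₀ + 12 * b * t := by ring
      rw [e, hm₀]
      ring
    · have h5 : k₀ + 12 * t ≤ 12 * b ^ C := by omega
      calc b * (k₀ + 12 * t) ≤ b * (12 * b ^ C) := Nat.mul_le_mul_left _ h5
        _ ≤ b * (b * b ^ C) := by gcongr
        _ = b ^ (C + 2) := by ring
        _ ≤ b ^ (C + 3) := Nat.pow_le_pow_right (by omega) (by omega)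
    · intro p hp hpd
      by_contra hle
      push Not at hle
      apply hr1 p hp hle
      exact_mod_cast hpd
    · intro p hp hpd
      by_contra hle
      push Not at hle
      apply hr2 p hp hle
      exact_mod_cast hpd
  · intro i l hl hlb hl4
    have hl5 : 5 ≤ l := by omega
    cases i with
    | true =>
      simp only [hv, if_true]
      apply lin_poly l hl 12 k₀
      rintro ⟨h1, _⟩
      have h2 : l ∣ 12 := by exact_mod_cast h1
      have h5 : l ∣ 2 ^ 2 * 3 := h2
      rcases (Nat.Prime.dvd_mul hl).mp h5 with h6 | h6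
      · have := (Nat.prime_dvd_prime_iff_eq hl Nat.prime_two).mp (hl.dvd_of_dvd_pow h6)
        omega
      · have := (Nat.prime_dvd_prime_iff_eq hl Nat.prime_three).mp h6
        omega
    | false =>
      simp only [hv, Bool.false_eq_true, if_false]
      apply lin_poly l hl (6 * b) m₀
      rintro ⟨h1, h2⟩
      have h2' : l ∣ m₀ := by exact_mod_cast h2
      have h1' : l ∣ 6 * b := by exact_mod_cast h1
      have h6 : l ∣ b := by
        rcases (Nat.Prime.dvd_mul hl).mp h1' with h6 | h6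
        · exfalso
          have h7 : l ∣ 2 * 3 := h6
          rcases (Nat.Prime.dvd_mul hl).mp h7 with h8 | h8
          · have := (Nat.prime_dvd_prime_iff_eq hl Nat.prime_two).mp h8
            omega
          · have := (Nat.prime_dvd_prime_iff_eq hl Nat.prime_three).mp h8
            omega
        · exact h6
      have h7 : l ∣ 2 * m₀ + 1 := by
        rw [← hm₀]
        exact Dvd.dvd.mul_right h6 _
      have h8 : l ∣ 1 := (Nat.dvd_add_right (Dvd.dvd.mul_left h2' 2)).mp h7
      exact hl.one_lt.ne' (Nat.dvd_one.mp h8)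
  · intro i l hl _ hl4 t
    have hl23 : l = 2 ∨ l = 3 := by
      have h1 := hl.two_le
      have h2 : l ≤ 4 := by omega
      interval_cases l
      · left; rfl
      · right; rfl
      · exact absurd hl (by norm_num)
    have hk₀2 : k₀ % 2 = 1 := by
      by_contra h0
      have h1 : k₀ % 2 = 0 := by omega
      obtain ⟨c, hc⟩ : ∃ c, k₀ = 2 * c := ⟨k₀ / 2, by omega⟩
      have h2 : b * k₀ = 2 * (b * c) := by
        rw [hc]
        ring
      omega
    cases i with
    | true =>
      simp only [hv, if_true]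
      rcases hl23 with rfl | rfl
      · intro h; push_cast at h; omega
      · intro h; push_cast at h; omega
    | false =>
      simp only [hv, Bool.false_eq_true, if_false]
      have e : (6 * (b : ℤ)) * (t : ℤ) = 6 * ((b : ℤ) * t) := by ring
      rw [e]
      rcases hl23 with rfl | rfl
      · intro h; push_cast at h; omega
      · intro h; push_cast at h; omega

/-- totients of rough numbers -/
lemma tot_rough (b E m : ℕ) (hb : 2 ≤ b) (hm : 0 < m) (hmE : m ≤ b ^ E)
    (hr : ∀ p : ℕ, p.Prime → p ∣ m → b < p) :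
    (m : ℝ) * (1 - E / b) ≤ Nat.totient m ∧ (Nat.totient m : ℝ) ≤ m := by
  refine ⟨?_, by exact_mod_cast Nat.totient_le m⟩
  have hb0 : (0 : ℝ) < b := by
    have : 0 < b := by omega
    exact_mod_cast this
  have hcard : m.primeFactors.card ≤ E := by
    by_contra hlt
    push Not at hlt
    have h1 : b ^ m.primeFactors.card ≤ ∏ p ∈ m.primeFactors, p := by
      rw [← prod_const]
      apply Finset.prod_le_prod' 
      intro p hp
      exact (hr p (Nat.prime_of_mem_primeFactors hp) (Nat.dvd_of_mem_primeFactors hp)).le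
    have h2 : ∏ p ∈ m.primeFactors, p ≤ m := Nat.le_of_dvd hm (Nat.prod_primeFactors_dvd m)
    have h3 : b ^ (E + 1) ≤ b ^ m.primeFactors.card := Nat.pow_le_pow_right (by omega) hlt
    have h4 : b ^ E < b ^ (E + 1) := Nat.pow_lt_pow_right (by omega) (by omega)
    omega
  have h1 := Nat.totient_eq_mul_prod_factors m
  have h2 : (Nat.totient m : ℝ) = m * ∏ p ∈ m.primeFactors, (1 - 1 / (p : ℝ)) := by
    have h3 : ((Nat.totient m : ℚ) : ℝ) = ((m * ∏ p ∈ m.primeFactors, (1 - (p : ℚ)⁻¹) : ℚ) : ℝ) := by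
      rw [h1]
    push_cast at h3
    rw [h3]
    congr 1
    apply prod_congr rfl
    intro p _
    rw [one_div]
  rw [h2]
  apply mul_le_mul_of_nonneg_left _ (Nat.cast_nonneg m)
  have h4 := (Pnd.prod_ge m.primeFactors (fun p => 1 / (p : ℝ)) (by
    intro p hp
    have h5 : (1 : ℝ) ≤ p := by exact_mod_cast (Nat.prime_of_mem_primeFactors hp).one_lt.le
    exact ⟨by positivity, by rw [div_le_one (by linarith)]; exact h5⟩)).1
  refine le_trans ?_ h4
  have h5 : ∑ p ∈ m.primeFactors, 1 / (p : ℝ) ≤ E / b := by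
    calc ∑ p ∈ m.primeFactors, 1 / (p : ℝ) ≤ ∑ p ∈ m.primeFactors, 1 / (b : ℝ) := by
          apply sum_le_sum
          intro p hp
          apply one_div_le_one_div_of_le hb0
          exact_mod_cast (hr p (Nat.prime_of_mem_primeFactors hp)
            (Nat.dvd_of_mem_primeFactors hp)).le
      _ = m.primeFactors.card * (1 / b) := by rw [sum_const, nsmul_eq_mul]
      _ ≤ E * (1 / b) := by
          apply mul_le_mul_of_nonneg_right _ (by positivity)
          exact_mod_cast hcard
      _ = E / b := by ring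
  linarith

/-- **A power saving for consecutive integers.** For some `c > 0` there are infinitely many `n` with
`|φ(n + 1) - φ(n)| < n ^ (1 - c)`. -/
theorem result : ∃ c : ℝ, 0 < c ∧
    {n : ℕ | |(Nat.totient (n + 1) : ℝ) - (Nat.totient n : ℝ)| < (n : ℝ) ^ (1 - c)}.Infinite := by
  obtain ⟨κ, hκ, hhalf⟩ := half
  obtain ⟨E, hE3, hsieve⟩ := sieve_pair
  set κ1 : ℝ := min κ 1 with hκ1
  have hκ1p : 0 < κ1 := lt_min hκ one_pos
  have hE0 : (0 : ℝ) < E := by
    have : 0 < E := by omega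
    exact_mod_cast this
  set c : ℝ := κ1 / (2 * E) with hc
  have hc0 : 0 < c := by positivity
  refine ⟨c, hc0, ?_⟩
  rw [Set.infinite_iff_exists_gt]
  intro N
  have ev : ∀ᶠ x : ℝ in atTop, (E : ℝ) + 3 < x ^ (κ1 / 2) :=
    (tendsto_rpow_atTop (by positivity)).eventually_gt_atTop _
  obtain ⟨x₀, hx₀⟩ := eventually_atTop.mp ev
  obtain ⟨b, hbB, hbodd, θ, hθ0, hθb, htot⟩ := hhalf (max (N + 12) ⌈x₀⌉₊)
  have hb12 : N + 12 < b := (le_max_left _ _).trans_lt hbB
  have hbx₀ : x₀ ≤ b := by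
    have h1 : ⌈x₀⌉₊ < b := (le_max_right _ _).trans_lt hbB
    exact (Nat.le_ceil x₀).trans (by exact_mod_cast h1.le)
  have hb0 : (1 : ℝ) < b := by
    have : 1 < b := by omega
    exact_mod_cast this
  obtain ⟨k, m, hk, hm, hbk, hbkE, hkr, hmr⟩ := hsieve b hbodd (by omega)
  refine ⟨2 * m, ?_, ?_⟩
  · rw [Set.mem_ofPred_eq]
    -- `n = 2 m`, `n + 1 = b k`
    have hmodd : Odd m := by
      rw [← Nat.not_even_iff_odd]
      intro he
      have := hmr 2 Nat.prime_two he.two_dvd
      omega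
    have hcop2 : Nat.Coprime 2 m := by
      rw [Nat.coprime_two_left]
      exact hmodd
    have hcopb : Nat.Coprime b k := by
      rw [Nat.coprime_iff_gcd_eq_one]
      by_contra h1
      obtain ⟨p, hp, hpd⟩ := Nat.exists_prime_and_dvd h1
      have h2 := hkr p hp (hpd.trans (Nat.gcd_dvd_right b k))
      have h3 := Nat.le_of_dvd (by omega) (hpd.trans (Nat.gcd_dvd_left b k))
      omega
    have hmle : m ≤ b ^ E := by omega
    have hkle : k ≤ b ^ E := by
      have : k ≤ b * k := Nat.le_mul_of_pos_left k (by omega)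
      omega
    obtain ⟨m1, m2⟩ := tot_rough b E m (by omega) hm hmle hmr
    obtain ⟨k1, k2⟩ := tot_rough b E k (by omega) hk hkle hkr
    have hφn : (Nat.totient (2 * m) : ℝ) = Nat.totient m := by
      rw [Nat.totient_mul hcop2]
      simp
    have hφn1 : (Nat.totient (2 * m + 1) : ℝ) = (1 + θ) * b / 2 * Nat.totient k := by
      rw [← hbk, Nat.totient_mul hcopb]
      push_cast
      rw [← htot]
      ring
    have hbkr : (b : ℝ) * k = 2 * m + 1 := by exact_mod_cast hbk
    have hk0 : (1 : ℝ) ≤ k := by exact_mod_cast hk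
    have hm0 : (1 : ℝ) ≤ m := by exact_mod_cast hm
    set n : ℝ := ((2 * m : ℕ) : ℝ) with hn
    have hnm : n = 2 * m := by
      rw [hn]
      push_cast
      rfl
    have hn1 : 1 ≤ n := by
      rw [hnm]
      linarith
    have hbn : (b : ℝ) ≤ n + 1 := by
      rw [hnm, ← hbkr]
      nlinarith
    -- the size of `1 / b` and `θ`
    set β : ℝ := (b : ℝ) ^ (-κ1) with hβ
    have hβ0 : 0 < β := by positivity
    have hθβ : θ ≤ β := by
      refine hθb.trans ?_
      apply Real.rpow_le_rpow_of_exponent_le hb0.le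
      have := min_le_left κ 1
      linarith
    have hbβ : 1 / (b : ℝ) ≤ β := by
      have h1 : 1 / (b : ℝ) = (b : ℝ) ^ (-1 : ℝ) := by
        rw [Real.rpow_neg_one, one_div]
      rw [h1]
      apply Real.rpow_le_rpow_of_exponent_le hb0.le
      have := min_le_right κ 1
      linarith
    have hEb : (E : ℝ) / b ≤ E * β := by
      calc (E : ℝ) / b = E * (1 / b) := by ring
        _ ≤ E * β := by gcongr
    have hnβ : 1 ≤ 2 * (n * β) := by
      have h1 : (b : ℝ) * (1 / b) ≤ (n + 1) * β := by gcongr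
      have h2 : (b : ℝ) * (1 / b) = 1 := by field_simp
      rw [h2] at h1
      nlinarith
    -- upper bound
    have hup : (Nat.totient (2 * m + 1) : ℝ) - Nat.totient (2 * m) ≤ (E + 3) * (n * β) := by
      rw [hφn1, hφn]
      have h1 : (1 + θ) * b / 2 * Nat.totient k ≤ (1 + θ) * b / 2 * k := by gcongr
      have h2 : (1 + θ) * b / 2 * (k : ℝ) = (1 + θ) * (n + 1) / 2 := by
        rw [hnm, ← hbkr]
        ring
      have h3 : (m : ℝ) * (1 - E / b) = n / 2 - n / 2 * (E / b) := by
        rw [hnm]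
        ring
      rw [h3] at m1
      have h4 : n / 2 * (E / b) ≤ n / 2 * (E * β) := by gcongr
      have h5 : θ * (n + 1) ≤ β * (2 * n) := by
        apply mul_le_mul hθβ (by linarith) (by linarith) hβ0.le
      have h6 : n / 2 * (E * β) = E * (n * β) / 2 := by ring
      have h7 : 0 ≤ E * (n * β) := by positivity
      have h8 : 0 ≤ n * β := by positivity
      linarith
    have hlo : (Nat.totient (2 * m) : ℝ) - Nat.totient (2 * m + 1) ≤ (E + 3) * (n * β) := by
      rw [hφn1, hφn]
      have h1 : (b : ℝ) / 2 * (k * (1 - E / b)) ≤ (1 + θ) * b / 2 * Nat.totient k := by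
        have h1a : (b : ℝ) / 2 * (k * (1 - E / b)) ≤ (b : ℝ) / 2 * Nat.totient k := by gcongr
        have h1b : 0 ≤ θ * ((b : ℝ) / 2 * Nat.totient k) := by positivity
        linarith
      have h2 : (b : ℝ) / 2 * (k * (1 - E / b)) = (n + 1) / 2 - (n + 1) / 2 * (E / b) := by
        rw [hnm, ← hbkr]
        ring
      rw [h2] at h1
      have h4 : (n + 1) / 2 * (E / b) ≤ (n + 1) / 2 * (E * β) := by gcongr
      have h5 : (n + 1) / 2 * (E * β) ≤ n * (E * β) := by
        apply mul_le_mul_of_nonneg_right _ (by positivity)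
        linarith
      have h6 : n * (E * β) = E * (n * β) := by ring
      have h8 : 0 ≤ n * β := by positivity
      have h9 : (m : ℝ) = n / 2 := by
        rw [hnm]
        ring
      linarith
    have habs : |(Nat.totient (2 * m + 1) : ℝ) - (Nat.totient (2 * m) : ℝ)| ≤ (E + 3) * (n * β) := by
      rw [abs_le]
      constructor <;> linarith
    refine lt_of_le_of_lt habs ?_
    -- `(E + 3) b ^ (-κ1) < n ^ (-c)`
    have hbig := hx₀ b hbx₀
    have h1 : (E + 3 : ℝ) * β < (b : ℝ) ^ (-(κ1 / 2)) := by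
      have h2 : β = (b : ℝ) ^ (-(κ1 / 2)) * (b : ℝ) ^ (-(κ1 / 2)) := by
        rw [hβ, ← Real.rpow_add (by linarith)]
        congr 1
        ring
      have h3 : (b : ℝ) ^ (κ1 / 2) * (b : ℝ) ^ (-(κ1 / 2)) = 1 := by
        rw [← Real.rpow_add (by linarith)]
        simp
      have h4 : 0 < (b : ℝ) ^ (-(κ1 / 2)) := by positivity
      calc (E + 3 : ℝ) * β = ((E + 3) * (b : ℝ) ^ (-(κ1 / 2))) * (b : ℝ) ^ (-(κ1 / 2)) := by
            rw [h2]
            ring
        _ < ((b : ℝ) ^ (κ1 / 2) * (b : ℝ) ^ (-(κ1 / 2))) * (b : ℝ) ^ (-(κ1 / 2)) := by gcongr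
        _ = (b : ℝ) ^ (-(κ1 / 2)) := by rw [h3, one_mul]
    have h2 : (b : ℝ) ^ (-(κ1 / 2)) ≤ n ^ (-c) := by
      have hnE : n ≤ (b : ℝ) ^ (E : ℝ) := by
        rw [Real.rpow_natCast]
        have : 2 * m ≤ b ^ E := by omega
        rw [hn]
        exact_mod_cast this
      have h3 : ((b : ℝ) ^ (E : ℝ)) ^ (-c) ≤ n ^ (-c) :=
        Real.rpow_le_rpow_of_nonpos (by linarith) hnE (by linarith)
      refine le_trans (le_of_eq ?_) h3
      rw [← Real.rpow_mul (by linarith)]
      congr 1
      rw [hc]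
      field_simp
    have hn0 : 0 < n := by linarith
    calc (E + 3) * (n * β) = n * ((E + 3) * β) := by ring
      _ < n * n ^ (-c) := by
          apply mul_lt_mul_of_pos_left _ hn0
          linarith
      _ = n ^ (1 - c) := by
          rw [show (1 : ℝ) - c = 1 + -c by ring, Real.rpow_add hn0, Real.rpow_one]
  · have h1 : b ≤ b * k := Nat.le_mul_of_pos_right b hk
    omega

end Pool.Agent.Results.MP_a17a46_nt.PowerSaving
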